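import Pool.Agent.W388.TW.D0
import Pool.Agent.H306R2.Karamata2

set_option autoImplicit false

/-! TW-Kara : Karamata's Tauberian theorem, from the multi-dimensional one of `H306R2`. -/

namespace W688.TW

open Filter Topology MeasureTheory Pool.Agent.H306R2

noncomputable section

/-- trapezoid : `1` for `u ≤ a`, `0` for `u ≥ b`. -/
def trap (a b u : ℝ) : ℝ := max 0 (min 1 ((b - u) / (b - a)))

lemma trap_cont (a b : ℝ) : Continuous (trap a b) := by
  unfold trap; fun_prop

lemma trap_nonneg (a b u : ℝ) : 0 ≤ trap a b u := le_max_left _ _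

lemma trap_le_one (a b u : ℝ) : trap a b u ≤ 1 := max_le zero_le_one (min_le_left _ _)

lemma trap_eq_one {a b u : ℝ} (hab : a < b) (h : u ≤ a) : trap a b u = 1 := by
  unfold trap
  have : 1 ≤ (b - u) / (b - a) := by rw [le_div_iff₀ (by linarith)]; linarith
  rw [min_eq_left this, max_eq_right zero_le_one]

lemma trap_eq_zero {a b u : ℝ} (hab : a < b) (h : b ≤ u) : trap a b u = 0 := by
  unfold trap
  have : (b - u) / (b - a) ≤ 0 := div_nonpos_of_nonpos_of_nonneg (by linarith) (by linarith)
  exact max_eq_left (le_trans (min_le_right _ _) this)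

lemma int_trap {a b : ℝ} (ha : 0 ≤ a) (hab : a < b) :
    a ≤ ∫ u : Fin 1 → ℝ, Gd (fun _ => 1) u * trap a b (u 0) ∧
    ∫ u : Fin 1 → ℝ, Gd (fun _ => 1) u * trap a b (u 0) ≤ b := by
  have hint : Integrable (fun u : Fin 1 → ℝ => Gd (fun _ => 1) u * trap a b (u 0)) := by
    refine tf_integrable (fun u : Fin 1 → ℝ => trap a b (u 0))
      ((trap_cont a b).comp (continuous_apply 0)) b ?_ (by linarith) (fun _ => one_pos)
    rintro u - ⟨i, hi⟩
    have : i = 0 := Subsingleton.elim _ _
    subst this
    exact trap_eq_zero hab hi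
  have hmp := (volume_preserving_funUnique (Fin 1) ℝ)
  have e : (fun u : Fin 1 → ℝ => Gd (fun _ => 1) u * trap a b (u 0)) =
      (fun t : ℝ => (Set.Ioi (0:ℝ)).indicator (trap a b) t) ∘
        (MeasurableEquiv.funUnique (Fin 1) ℝ) := by
    funext u
    simp only [Function.comp, Gd, Finset.univ_unique, Fin.default_eq_zero, Finset.prod_singleton,
      gd, sub_self, Real.rpow_zero, Real.Gamma_one, div_one, MeasurableEquiv.funUnique_apply,
      Set.indicator, Set.mem_Ioi]
    split_ifs <;> simp
  have e2 : ∫ u : Fin 1 → ℝ, Gd (fun _ => 1) u * trap a b (u 0) =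
      ∫ t : ℝ, (Set.Ioi (0:ℝ)).indicator (trap a b) t := by
    rw [e]
    exact hmp.integral_comp (MeasurableEquiv.measurableEmbedding _) _
  have hint2 : Integrable (fun t : ℝ => (Set.Ioi (0:ℝ)).indicator (trap a b) t) := by
    rw [e] at hint
    exact (hmp.integrable_comp_emb (MeasurableEquiv.measurableEmbedding _)).mp hint
  rw [e2]
  constructor
  · have h1 : ∫ t : ℝ, (Set.Ioc (0:ℝ) a).indicator (fun _ => (1:ℝ)) t = a := by
      rw [integral_indicator measurableSet_Ioc]
      simp [ha]
    refine le_trans h1.ge ?_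
    refine integral_mono ?_ hint2 fun t => ?_
    · exact (integrable_indicator_iff measurableSet_Ioc).mpr (by simp)
    · simp only [Set.indicator, Set.mem_Ioc, Set.mem_Ioi]
      split_ifs with h1 h2 h2
      · rw [trap_eq_one hab h1.2]
      · exact absurd h1.1 h2
      · exact trap_nonneg _ _ _
      · exact le_rfl
  · have h1 : ∫ t : ℝ, (Set.Ioc (0:ℝ) b).indicator (fun _ => (1:ℝ)) t = b := by
      rw [integral_indicator measurableSet_Ioc]
      simp [(by linarith : 0 ≤ b)]
    refine le_trans ?_ h1.le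
    refine integral_mono hint2 ?_ fun t => ?_
    · exact (integrable_indicator_iff measurableSet_Ioc).mpr (by simp)
    · simp only [Set.indicator, Set.mem_Ioc, Set.mem_Ioi]
      split_ifs with h1 h2 h2
      · exact trap_le_one _ _ _
      · rw [trap_eq_zero hab (by by_contra h3; push Not at h3; exact h2 ⟨h1, h3.le⟩)]
      · exact zero_le_one
      · exact le_rfl

theorem t_kara : W388.StKara := by
  intro v hv hv0 hsum hlim
  -- the one-dimensional case of the cube theorem
  have key : ∀ a b : ℝ, 0 ≤ a → a < b →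
      Tendsto (fun L : ℝ => (∑' c : Fin 1 → ℕ, v (c 0) * trap a b (pos L c 0)) / L) atTop
        (𝓝 (∫ u : Fin 1 → ℝ, Gd (fun _ => 1) u * trap a b (u 0))) := by
    intro a b ha hab
    have H : KH 1 (fun c : Fin 1 → ℕ => v (c 0)) := by
      refine ⟨fun c => hv _, ?_, ?_⟩
      · rintro c ⟨i, hi⟩
        have : i = 0 := Subsingleton.elim _ _
        subst this
        simp only [hi, hv0]
      · intro s hs
        have h1 := hsum (s 0) (hs 0)
        have h2 := (Equiv.funUnique (Fin 1) ℕ).summable_iff.mpr h1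
        refine h2.congr fun c => ?_
        simp [Finset.univ_unique]
    have h := karamata H 1 1 zero_le_one (fun _ => 1) (fun _ => one_pos) ?_
      (fun u => trap a b (u 0)) ((trap_cont a b).comp (continuous_apply 0)) b ?_ (by linarith)
    · simpa only [Real.rpow_one, one_mul] using h
    · intro s hs
      have hs0 := hs 0
      have e0 : Tendsto (fun L : ℝ => s 0 / L) atTop (𝓝[>] 0) := by
        rw [tendsto_nhdsWithin_iff]
        refine ⟨tendsto_const_nhds.div_atTop tendsto_id, ?_⟩
        filter_upwards [eventually_gt_atTop 0] with L hL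
        exact div_pos hs0 hL
      have e1 := (hlim.comp e0).div_const (s 0)
      simp only [Finset.univ_unique, Fin.default_eq_zero, Finset.prod_singleton, Real.rpow_one,
        one_mul, Real.rpow_neg_one]
      rw [one_div] at e1
      refine e1.congr' ?_
      filter_upwards [eventually_gt_atTop 0] with L hL
      simp only [Function.comp]
      have e2 : ∑' c : Fin 1 → ℕ, v (c 0) * ((c 0 : ℕ) : ℝ) ^ (-(s 0 / L)) =
          ∑' n : ℕ, v n * (n : ℝ) ^ (-(s 0 / L)) :=
        (Equiv.funUnique (Fin 1) ℕ).tsum_eq (fun n : ℕ => v n * (n : ℝ) ^ (-(s 0 / L)))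
      rw [e2]
      field_simp
    · rintro u - ⟨i, hi⟩
      have : i = 0 := Subsingleton.elim _ _
      subst this
      exact trap_eq_zero hab hi
  have key2 : ∀ a b : ℝ, 0 ≤ a → a < b →
      Tendsto (fun x : ℝ => (∑' n : ℕ, v n * trap a b (Real.log n / Real.log x)) / Real.log x) atTop
        (𝓝 (∫ u : Fin 1 → ℝ, Gd (fun _ => 1) u * trap a b (u 0))) := by
    intro a b ha hab
    refine ((key a b ha hab).comp Real.tendsto_log_atTop).congr fun x => ?_
    simp only [Function.comp]
    congr 1
    exact (Equiv.funUnique (Fin 1) ℕ).tsum_eq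
      (fun n : ℕ => v n * trap a b (Real.log n / Real.log x))
  -- summability of the trapezoid sums
  have hsm : ∀ a b x : ℝ, 0 ≤ a → a < b → 1 < x →
      Summable (fun n : ℕ => v n * trap a b (Real.log n / Real.log x)) := by
    intro a b x ha hab hx
    have hlx := Real.log_pos hx
    refine summable_of_ne_finset_zero (s := Finset.range (⌈Real.exp (b * Real.log x)⌉₊ + 1)) ?_
    intro n hn
    rw [Finset.mem_range, not_lt] at hn
    have h1 : Real.exp (b * Real.log x) ≤ n :=
      le_trans (Nat.le_ceil _) (by exact_mod_cast (by omega : ⌈Real.exp (b * Real.log x)⌉₊ ≤ n))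
    have h2 : b ≤ Real.log n / Real.log x := by
      rw [le_div_iff₀ hlx, Real.le_log_iff_exp_le (lt_of_lt_of_le (Real.exp_pos _) h1)]
      exact h1
    rw [trap_eq_zero hab h2, mul_zero]
  rw [Metric.tendsto_atTop]
  intro ε hε
  set δ := min (ε / 3) (1 / 2) with hδ
  have hδ0 : 0 < δ := lt_min (by positivity) (by norm_num)
  have hδ1 : δ ≤ 1 / 2 := min_le_right _ _
  have hδ2 : δ ≤ ε / 3 := min_le_left _ _
  have hup := key2 1 (1 + δ) zero_le_one (by linarith)
  have hlo := key2 (1 - δ) 1 (by linarith) (by linarith)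
  have iup := (int_trap (a := 1) (b := 1 + δ) zero_le_one (by linarith)).2
  have ilo := (int_trap (a := 1 - δ) (b := 1) (by linarith) (by linarith)).1
  have hup' := (tendsto_order.mp hup).2 (1 + ε) (by linarith)
  have hlo' := (tendsto_order.mp hlo).1 (1 - ε) (by linarith)
  obtain ⟨X, hX⟩ := (hup'.and (hlo'.and (eventually_gt_atTop 1))).exists_forall_of_atTop
  refine ⟨X, fun x hx => ?_⟩
  obtain ⟨h1, h2, h3⟩ := hX x hx
  have hlx := Real.log_pos h3
  rw [Real.dist_eq, abs_lt]
  have hup2 : ∑ n ∈ Finset.Icc 1 ⌊x⌋₊, v n ≤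
      ∑' n : ℕ, v n * trap 1 (1 + δ) (Real.log n / Real.log x) := by
    refine le_trans (le_of_eq ?_) ((hsm 1 (1 + δ) x zero_le_one (by linarith) h3).sum_le_tsum
      (Finset.Icc 1 ⌊x⌋₊) fun n _ => mul_nonneg (hv n) (trap_nonneg _ _ _))
    refine Finset.sum_congr rfl fun n hn => ?_
    rw [Finset.mem_Icc] at hn
    have hn1 : (0:ℝ) < n := by exact_mod_cast hn.1
    have hnx : (n:ℝ) ≤ x := (Nat.le_floor_iff (by linarith)).mp hn.2
    rw [trap_eq_one (by linarith), mul_one]
    rw [div_le_one hlx]
    exact Real.log_le_log hn1 hnx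
  have hlo2 : ∑' n : ℕ, v n * trap (1 - δ) 1 (Real.log n / Real.log x) ≤
      ∑ n ∈ Finset.Icc 1 ⌊x⌋₊, v n := by
    rw [tsum_eq_sum (s := Finset.Icc 1 ⌊x⌋₊)]
    · refine Finset.sum_le_sum fun n _ => ?_
      exact mul_le_of_le_one_right (hv n) (trap_le_one _ _ _)
    · intro n hn
      rw [Finset.mem_Icc, not_and, not_le] at hn
      rcases Nat.eq_zero_or_pos n with rfl | hn0
      · rw [hv0, zero_mul]
      · have h4 := hn hn0
        have h5 : x < n := (Nat.floor_lt (by linarith)).mp h4
        rw [trap_eq_zero (by linarith), mul_zero]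
        rw [le_div_iff₀ hlx, one_mul]
        exact Real.log_le_log (by linarith) h5.le
  constructor
  · have : (∑' n : ℕ, v n * trap (1 - δ) 1 (Real.log n / Real.log x)) / Real.log x ≤
        (∑ n ∈ Finset.Icc 1 ⌊x⌋₊, v n) / Real.log x := by gcongr
    linarith
  · have : (∑ n ∈ Finset.Icc 1 ⌊x⌋₊, v n) / Real.log x ≤
        (∑' n : ℕ, v n * trap 1 (1 + δ) (Real.log n / Real.log x)) / Real.log x := by gcongr
    linarith

end

end W688.TW
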