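import Pool.Agent.W388.TW.D0

set_option autoImplicit false

/-! TW-Sel : from the Rankin–Selberg limit to `∑_{n ≤ x} Λ(n) c(n)² / n ∼ log x`. -/

namespace W688.TW

open Filter Topology LSeries

noncomputable section

/-! ### real Dirichlet series at `1 + σ` -/

/-- `∑ f(n) n^(-(1+σ))` -/
def RS (f : ℕ → ℝ) (σ : ℝ) : ℝ := ∑' n : ℕ, f n * (n : ℝ) ^ (-(1 + σ))

lemma term_eq (f : ℕ → ℝ) {σ : ℝ} (hσ : -1 < σ) (n : ℕ) :
    LSeries.term (fun n => (f n : ℂ)) ((1 + σ : ℝ) : ℂ) n =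
      ((f n * (n : ℝ) ^ (-(1 + σ)) : ℝ) : ℂ) := by
  rcases Nat.eq_zero_or_pos n with rfl | hn
  · rw [LSeries.term_zero, Nat.cast_zero, Real.zero_rpow (by linarith), mul_zero,
      Complex.ofReal_zero]
  · rw [LSeries.term_of_ne_zero hn.ne', Complex.ofReal_mul, Complex.ofReal_cpow (by positivity),
      Complex.ofReal_neg, Complex.cpow_neg, Complex.ofReal_natCast, div_eq_mul_inv]

lemma lsum_iff (f : ℕ → ℝ) {σ : ℝ} (hσ : -1 < σ) :
    LSeriesSummable (fun n => (f n : ℂ)) ((1 + σ : ℝ) : ℂ) ↔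
      Summable (fun n : ℕ => f n * (n : ℝ) ^ (-(1 + σ))) := by
  unfold LSeriesSummable
  rw [funext (term_eq f hσ)]
  exact Complex.summable_ofReal

lemma lser_eq (f : ℕ → ℝ) {σ : ℝ} (hσ : -1 < σ) :
    LSeries (fun n => (f n : ℂ)) ((1 + σ : ℝ) : ℂ) = ((RS f σ : ℝ) : ℂ) := by
  unfold LSeries RS
  rw [funext (term_eq f hσ), Complex.ofReal_tsum]

/-- `f` has a convergent series for all `σ > 0` -/
def Good (f : ℕ → ℝ) : Prop := ∀ σ : ℝ, 0 < σ → Summable (fun n : ℕ => f n * (n : ℝ) ^ (-(1 + σ)))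

lemma Good.abs_lt {f : ℕ → ℝ} (hf : Good f) {σ : ℝ} (hσ : 0 < σ) :
    abscissaOfAbsConv (fun n => (f n : ℂ)) < (((1 + σ : ℝ) : ℂ)).re := by
  have h1 : LSeriesSummable (fun n => (f n : ℂ)) ((1 + σ / 2 : ℝ) : ℂ) :=
    (lsum_iff f (by linarith)).mpr (hf (σ / 2) (by linarith))
  refine lt_of_le_of_lt h1.abscissaOfAbsConv_le ?_
  rw [Complex.ofReal_re, Complex.ofReal_re, EReal.coe_lt_coe_iff]
  linarith

lemma logMul_eq (f : ℕ → ℝ) :
    logMul (fun n => (f n : ℂ)) = fun n : ℕ => ((Real.log (n : ℝ) * f n : ℝ) : ℂ) := by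
  funext n
  simp only [logMul, Complex.ofReal_mul, ← Complex.natCast_log]

lemma Good.log {f : ℕ → ℝ} (hf : Good f) : Good (fun n : ℕ => Real.log (n : ℝ) * f n) := by
  intro σ hσ
  rw [← lsum_iff _ (by linarith), ← logMul_eq]
  exact LSeriesSummable_logMul_of_lt_re (hf.abs_lt hσ)

lemma Good.hasDerivAt {f : ℕ → ℝ} (hf : Good f) {σ : ℝ} (hσ : 0 < σ) :
    HasDerivAt (RS f) (-RS (fun n : ℕ => Real.log (n : ℝ) * f n) σ) σ := by
  have h1 := LSeries_hasDerivAt (hf.abs_lt hσ)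
  rw [logMul_eq, lser_eq _ (by linarith)] at h1
  have h2 := h1.real_of_complex
  have h3 : HasDerivAt (fun x : ℝ => 1 + x) 1 σ := by
    simpa using (hasDerivAt_id σ).const_add 1
  have h4 := HasDerivAt.comp (h₂ := fun x : ℝ => (LSeries (fun n => (f n : ℂ)) (x : ℂ)).re)
    (h := fun x : ℝ => 1 + x) σ (by simpa using h2) h3
  rw [mul_one] at h4
  refine h4.congr_of_eventuallyEq ?_
  filter_upwards [lt_mem_nhds hσ] with y hy
  simp only [Function.comp]
  rw [lser_eq _ (by linarith), Complex.ofReal_re]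

lemma rpow_anti {n : ℕ} {s t : ℝ} (h : s ≤ t) (hs : -1 < s) :
    (n : ℝ) ^ (-(1 + t)) ≤ (n : ℝ) ^ (-(1 + s)) := by
  rcases Nat.eq_zero_or_pos n with rfl | hn
  · rw [Nat.cast_zero, Real.zero_rpow (by linarith), Real.zero_rpow (by linarith)]
  · exact Real.rpow_le_rpow_of_exponent_le (by exact_mod_cast hn) (by linarith)

lemma RS_anti {f : ℕ → ℝ} (hf : Good f) (h0 : ∀ n, 0 ≤ f n) {s t : ℝ} (hs : 0 < s) (h : s ≤ t) :
    RS f t ≤ RS f s :=
  (hf t (by linarith)).tsum_le_tsum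
    (fun n => mul_le_mul_of_nonneg_left (rpow_anti h (by linarith)) (h0 n)) (hf s hs)

lemma RS_nonneg {f : ℕ → ℝ} (h0 : ∀ n, 0 ≤ f n) (s : ℝ) : 0 ≤ RS f s :=
  tsum_nonneg fun n => mul_nonneg (h0 n) (Real.rpow_nonneg (Nat.cast_nonneg _) _)

/-- product formula -/
lemma RS_conv {f g h : ℕ → ℝ} (hfg : ∀ n, h n = ∑ p ∈ n.divisorsAntidiagonal, f p.1 * g p.2)
    {σ : ℝ} (hσ : -1 < σ) (hf : Summable (fun n : ℕ => f n * (n : ℝ) ^ (-(1 + σ))))
    (hg : Summable (fun n : ℕ => g n * (n : ℝ) ^ (-(1 + σ)))) :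
    Summable (fun n : ℕ => h n * (n : ℝ) ^ (-(1 + σ))) ∧ RS h σ = RS f σ * RS g σ := by
  have e : LSeries.convolution (fun n => (f n : ℂ)) (fun n => (g n : ℂ)) = fun n => (h n : ℂ) := by
    rw [LSeries.convolution_def]
    funext n
    rw [hfg]
    push_cast
    rfl
  have h1 := (lsum_iff f hσ).mpr hf
  have h2 := (lsum_iff g hσ).mpr hg
  constructor
  · rw [← lsum_iff h hσ, ← e]
    exact h1.convolution h2
  · have h3 := LSeries_convolution' h1 h2
    rw [e, lser_eq _ hσ, lser_eq _ hσ, lser_eq _ hσ] at h3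
    exact_mod_cast h3

/-! ### squares coprime to `N` -/

/-- indicator of the squares `m²`, `m ≥ 1` coprime to `N` -/
def sq (N : ℕ) (n : ℕ) : ℝ := if n ≠ 0 ∧ (Nat.sqrt n) ^ 2 = n ∧ Nat.Coprime (Nat.sqrt n) N then 1 else 0

lemma sq_nonneg' (N n : ℕ) : 0 ≤ sq N n := by unfold sq; split_ifs <;> norm_num

lemma sq_le_one (N n : ℕ) : sq N n ≤ 1 := by unfold sq; split_ifs <;> norm_num

lemma sq_summable (N : ℕ) : Summable (fun n : ℕ => sq N n * (n : ℝ) ^ (-(1 : ℝ))) := by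
  have hinj : Function.Injective (fun m : ℕ => m ^ 2) := fun a b h =>
    Nat.pow_left_injective (by norm_num : (2:ℕ) ≠ 0) h
  refine (hinj.summable_iff ?_).mp ?_
  · intro n hn
    unfold sq
    rw [if_neg, zero_mul]
    rintro ⟨-, h2, -⟩
    exact hn ⟨Nat.sqrt n, h2⟩
  · refine Summable.of_nonneg_of_le (fun m => ?_) (fun m => ?_)
      (Real.summable_one_div_nat_pow.mpr (by norm_num : 1 < 2))
    · exact mul_nonneg (sq_nonneg' _ _) (Real.rpow_nonneg (Nat.cast_nonneg _) _)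
    · simp only [Function.comp, Nat.cast_pow, Real.rpow_neg_one, one_div]
      exact mul_le_of_le_one_left (by positivity) (sq_le_one _ _)

lemma sq_good {N : ℕ} {σ : ℝ} (hσ : 0 ≤ σ) :
    Summable (fun n : ℕ => sq N n * (n : ℝ) ^ (-(1 + σ))) := by
  refine Summable.of_nonneg_of_le (fun m => mul_nonneg (sq_nonneg' _ _)
    (Real.rpow_nonneg (Nat.cast_nonneg _) _)) (fun n => ?_) (sq_summable N)
  refine mul_le_mul_of_nonneg_left ?_ (sq_nonneg' _ _)
  simpa using rpow_anti (n := n) (s := 0) hσ (by norm_num)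

lemma sq_tendsto (N : ℕ) : Tendsto (RS (sq N)) (𝓝[>] 0) (𝓝 (RS (sq N) 0)) := by
  unfold RS
  refine tendsto_tsum_of_dominated_convergence (sq_summable N) ?_ ?_
  · intro n
    refine Tendsto.mono_left ?_ nhdsWithin_le_nhds
    refine Tendsto.const_mul _ ?_
    rcases Nat.eq_zero_or_pos n with rfl | hn
    · have h1 : (fun σ : ℝ => ((0:ℕ) : ℝ) ^ (-(1 + σ))) =ᶠ[𝓝 0] fun _ => 0 := by
        filter_upwards [lt_mem_nhds (show (-1:ℝ) < 0 by norm_num)] with σ hσ
        rw [Nat.cast_zero, Real.zero_rpow (by linarith)]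
      rw [Nat.cast_zero, Real.zero_rpow (by norm_num)]
      rw [Nat.cast_zero] at h1
      exact (tendsto_congr' h1).mpr tendsto_const_nhds
    · have : Continuous (fun σ : ℝ => (n : ℝ) ^ (-(1 + σ))) := by
        refine Continuous.rpow continuous_const (by fun_prop) fun x => Or.inl ?_
        positivity
      exact this.tendsto 0
  · filter_upwards [self_mem_nhdsWithin] with σ hσ n
    rw [Set.mem_Ioi] at hσ
    rw [Real.norm_of_nonneg (mul_nonneg (sq_nonneg' _ _)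
      (Real.rpow_nonneg (Nat.cast_nonneg _) _))]
    refine mul_le_mul_of_nonneg_left ?_ (sq_nonneg' _ _)
    simpa using rpow_anti (n := n) (s := 0) hσ.le (by norm_num)

lemma sq_pos (N : ℕ) : 0 < RS (sq N) 0 := by
  have h1 : (fun n : ℕ => sq N n * (n : ℝ) ^ (-(1 + (0:ℝ)))) =
      fun n : ℕ => sq N n * (n : ℝ) ^ (-(1:ℝ)) := by simp
  unfold RS
  rw [h1]
  have h2 := (sq_summable N).le_tsum 1 (fun m _ => mul_nonneg (sq_nonneg' _ _)
    (Real.rpow_nonneg (Nat.cast_nonneg _) _))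
  refine lt_of_lt_of_le ?_ h2
  simp [sq]

lemma AA_conv (N : ℕ) (lam : ℕ → ℝ) (n : ℕ) :
    W388.AA N lam n = ∑ p ∈ n.divisorsAntidiagonal, sq N p.1 * (lam p.2) ^ 2 := by
  unfold W388.AA
  refine Finset.sum_of_injOn (fun m => (m ^ 2, n / m ^ 2)) ?_ ?_ ?_ ?_
  · intro a _ b _ h
    simp only [Prod.mk.injEq] at h
    exact Nat.pow_left_injective (by norm_num : (2:ℕ) ≠ 0) h.1
  · intro m hm
    simp only [Finset.coe_filter, Finset.mem_Icc, Set.mem_ofPred_eq] at hm
    obtain ⟨⟨h1, h2⟩, h3, h4⟩ := hm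
    simp only [Finset.mem_coe, Nat.mem_divisorsAntidiagonal]
    exact ⟨Nat.mul_div_cancel' h3, by omega⟩
  · rintro ⟨d, e⟩ hde hni
    rw [Nat.mem_divisorsAntidiagonal] at hde
    simp only at hde ⊢
    unfold sq
    rw [if_neg, zero_mul]
    rintro ⟨hd0, hd1, hd2⟩
    apply hni
    refine ⟨Nat.sqrt d, ?_, ?_⟩
    · simp only [Finset.coe_filter, Finset.mem_Icc, Set.mem_ofPred_eq]
      have hs0 : 0 < Nat.sqrt d := Nat.sqrt_pos.mpr (Nat.pos_of_ne_zero hd0)
      have he0 : 0 < e := Nat.pos_of_ne_zero (by rintro rfl; exact hde.2 (by simp [← hde.1]))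
      refine ⟨⟨hs0, ?_⟩, ?_, hd2⟩
      · calc Nat.sqrt d ≤ d := Nat.sqrt_le_self d
          _ ≤ d * e := Nat.le_mul_of_pos_right d he0
          _ = n := hde.1
      · rw [hd1]
        exact ⟨e, hde.1.symm⟩
    · show (Nat.sqrt d ^ 2, n / Nat.sqrt d ^ 2) = (d, e)
      rw [hd1]
      simp only [Prod.mk.injEq, true_and]
      rw [← hde.1]
      exact Nat.mul_div_cancel_left e (Nat.pos_of_ne_zero hd0)
  · intro m hm
    rw [Finset.mem_filter, Finset.mem_Icc] at hm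
    obtain ⟨⟨h1, h2⟩, h3, h4⟩ := hm
    simp only
    unfold sq
    rw [if_pos, one_mul]
    have : Nat.sqrt (m ^ 2) = m := Nat.sqrt_eq' m
    rw [this]
    exact ⟨by positivity, rfl, h4⟩

/-! ### the main argument -/

/-- data : `a ≥ 0`, `b ≥ 0`, `a log = b * a` (Dirichlet convolution), `a 1 = 1`. -/
structure Dat (a b : ℕ → ℝ) : Prop where
  a0 : ∀ n, 0 ≤ a n
  b0 : ∀ n, 0 ≤ b n
  bz : b 0 = 0
  a1 : a 1 = 1
  id : ∀ n : ℕ, Real.log n * a n = ∑ p ∈ n.divisorsAntidiagonal, b p.1 * a p.2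
  good : Good a

lemma Dat.bgood {a b : ℕ → ℝ} (H : Dat a b) : Good b := by
  intro σ hσ
  refine Summable.of_nonneg_of_le (fun n => mul_nonneg (H.b0 n)
    (Real.rpow_nonneg (Nat.cast_nonneg _) _)) (fun n => ?_) (H.good.log σ hσ)
  refine mul_le_mul_of_nonneg_right ?_ (Real.rpow_nonneg (Nat.cast_nonneg _) _)
  rcases Nat.eq_zero_or_pos n with rfl | hn
  · rw [H.bz]; simp
  · show b n ≤ Real.log n * a n
    rw [H.id n]
    have h1 : (n, 1) ∈ n.divisorsAntidiagonal := by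
      rw [Nat.mem_divisorsAntidiagonal]; exact ⟨by simp, hn.ne'⟩
    have h2 := Finset.single_le_sum (f := fun p : ℕ × ℕ => b p.1 * a p.2)
      (fun p _ => mul_nonneg (H.b0 _) (H.a0 _)) h1
    simpa [H.a1] using h2

lemma Dat.deriv {a b : ℕ → ℝ} (H : Dat a b) {σ : ℝ} (hσ : 0 < σ) :
    HasDerivAt (RS a) (-(RS b σ * RS a σ)) σ := by
  have h := H.good.hasDerivAt hσ
  rwa [(RS_conv H.id (by linarith) (H.bgood σ hσ) (H.good σ hσ)).2] at h

lemma Dat.one_le {a b : ℕ → ℝ} (H : Dat a b) {σ : ℝ} (hσ : 0 < σ) : 1 ≤ RS a σ := by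
  have h := (H.good σ hσ).le_tsum 1 (fun m _ => mul_nonneg (H.a0 m)
    (Real.rpow_nonneg (Nat.cast_nonneg _) _))
  rw [H.a1, Nat.cast_one, Real.one_rpow, mul_one] at h
  exact h

lemma Dat.log_deriv {a b : ℕ → ℝ} (H : Dat a b) {σ : ℝ} (hσ : 0 < σ) :
    HasDerivAt (fun x => Real.log (RS a x)) (-(RS b σ)) σ := by
  have h1 := H.one_le hσ
  have h := (H.deriv hσ).log (by linarith)
  convert h using 1
  field_simp

lemma Dat.mvt {a b : ℕ → ℝ} (H : Dat a b) {s t : ℝ} (hs : 0 < s) (hst : s < t) :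
    RS b t * (t - s) ≤ Real.log (RS a s) - Real.log (RS a t) ∧
    Real.log (RS a s) - Real.log (RS a t) ≤ RS b s * (t - s) := by
  obtain ⟨ξ, hξ, h⟩ := exists_hasDerivAt_eq_slope (fun x => Real.log (RS a x)) (fun x => -(RS b x))
    hst (fun x hx => (H.log_deriv (lt_of_lt_of_le hs hx.1)).continuousAt.continuousWithinAt)
    (fun x hx => H.log_deriv (hs.trans hx.1))
  rw [eq_div_iff (by linarith)] at h
  have h1 : Real.log (RS a s) - Real.log (RS a t) = RS b ξ * (t - s) := by linarith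
  rw [h1]
  have hb := H.bgood
  exact ⟨mul_le_mul_of_nonneg_right (RS_anti hb H.b0 (hs.trans hξ.1) hξ.2.le) (by linarith),
    mul_le_mul_of_nonneg_right (RS_anti hb H.b0 hs hξ.1.le) (by linarith)⟩

/-- the limit `σ G(σ) → 1` -/
lemma Dat.lim {a b : ℕ → ℝ} (H : Dat a b) {κ : ℝ} (hκ : 0 < κ)
    (hlim : Tendsto (fun σ => σ * RS a σ) (𝓝[>] 0) (𝓝 κ)) :
    Tendsto (fun σ => σ * RS b σ) (𝓝[>] 0) (𝓝 1) := by
  -- `log D(μσ) - log D(σ) → -log μ`
  have key : ∀ μ : ℝ, 0 < μ → Tendsto (fun σ => Real.log (RS a σ) - Real.log (RS a (μ * σ)))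
      (𝓝[>] 0) (𝓝 (Real.log μ)) := by
    intro μ hμ
    have h1 : Tendsto (fun σ => Real.log (σ * RS a σ)) (𝓝[>] 0) (𝓝 (Real.log κ)) :=
      hlim.log hκ.ne'
    have hm : Tendsto (fun σ : ℝ => μ * σ) (𝓝[>] 0) (𝓝[>] 0) := by
      rw [tendsto_nhdsWithin_iff]
      constructor
      · have : Tendsto (fun σ : ℝ => μ * σ) (𝓝 0) (𝓝 (μ * 0)) :=
          (continuous_const.mul continuous_id).tendsto 0
        rw [mul_zero] at this
        exact this.mono_left nhdsWithin_le_nhds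
      · filter_upwards [self_mem_nhdsWithin] with σ hσ
        exact mul_pos hμ hσ
    have h2 := h1.comp hm
    have h3 := (h1.sub h2).add_const (Real.log μ)
    rw [sub_self, zero_add] at h3
    refine h3.congr' ?_
    filter_upwards [self_mem_nhdsWithin] with σ hσ
    rw [Set.mem_Ioi] at hσ
    have e1 := H.one_le hσ
    have e2 := H.one_le (mul_pos hμ hσ)
    simp only [Function.comp]
    rw [Real.log_mul hσ.ne' (by linarith), Real.log_mul (by positivity) (by linarith),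
      Real.log_mul hμ.ne' hσ.ne']
    ring
  rw [tendsto_order]
  -- `log μ / (μ - 1) → 1`
  have hq : Tendsto (fun μ : ℝ => Real.log μ / (μ - 1)) (𝓝[≠] 1) (𝓝 1) := by
    have := (Real.hasDerivAt_log (x := 1) one_ne_zero)
    rw [hasDerivAt_iff_tendsto_slope, inv_one] at this
    refine this.congr' ?_
    filter_upwards with μ
    rw [slope_def_field, Real.log_one, sub_zero]
  constructor
  · intro c hc
    have h1 : ∀ᶠ μ in 𝓝[>] (1:ℝ), c < Real.log μ / (μ - 1) :=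
      (hq.mono_left (nhdsWithin_mono 1 (fun x (hx : 1 < x) => hx.ne'))).eventually_const_lt hc
    obtain ⟨μ, h2, h3⟩ := (h1.and self_mem_nhdsWithin).exists
    have h4 := (key μ (by linarith)).eventually_const_lt (u := c * (μ - 1))
      (by rwa [lt_div_iff₀ (by linarith)] at h2)
    filter_upwards [h4, self_mem_nhdsWithin] with σ h5 hσ
    rw [Set.mem_Ioi] at hσ
    have h6 := (H.mvt hσ (show σ < μ * σ by nlinarith)).2
    have h7 : c * (μ - 1) < (σ * RS b σ) * (μ - 1) := by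
      calc c * (μ - 1) < _ := h5
        _ ≤ _ := h6
        _ = _ := by ring
    exact lt_of_mul_lt_mul_right h7 (by linarith)
  · intro c hc
    have h1 : ∀ᶠ μ in 𝓝[<] (1:ℝ), Real.log μ / (μ - 1) < c :=
      (hq.mono_left (nhdsWithin_mono 1 (fun x (hx : x < 1) => hx.ne))).eventually_lt_const hc
    obtain ⟨μ, ⟨h2, h3⟩, h0⟩ := ((h1.and self_mem_nhdsWithin).and
      (mem_nhdsWithin_of_mem_nhds (lt_mem_nhds (show (0:ℝ) < 1 by norm_num)))).exists
    have h4 := (key μ h0).eventually_const_lt (u := c * (μ - 1))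
      (by rwa [div_lt_iff_of_neg (by linarith)] at h2)
    filter_upwards [h4, self_mem_nhdsWithin] with σ h5 hσ
    rw [Set.mem_Ioi] at hσ
    have h6 := (H.mvt (mul_pos h0 hσ) (show μ * σ < σ by nlinarith)).1
    have h7 : (σ * RS b σ) * (1 - μ) < c * (1 - μ) := by
      have : RS b σ * (σ - μ * σ) = (σ * RS b σ) * (1 - μ) := by ring
      linarith
    exact lt_of_mul_lt_mul_right h7 (by linarith)

/-- bound `D(σ) ≤ C/σ` -/
lemma Dat.bound {a b : ℕ → ℝ} (H : Dat a b) {κ : ℝ}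
    (hlim : Tendsto (fun σ => σ * RS a σ) (𝓝[>] 0) (𝓝 κ)) :
    ∃ C : ℝ, 0 < C ∧ ∀ σ : ℝ, 0 < σ → σ ≤ 1 → σ * RS a σ ≤ C := by
  have h1 := hlim.eventually_lt_const (lt_add_one κ)
  rw [eventually_nhdsWithin_iff, Metric.eventually_nhds_iff] at h1
  obtain ⟨dl, hdl, h2⟩ := h1
  have hdl2 : 0 < dl / 2 := by linarith
  refine ⟨max (κ + 1) (RS a (dl / 2)), lt_of_lt_of_le one_pos
    ((H.one_le hdl2).trans (le_max_right _ _)), fun σ hσ h1σ => ?_⟩
  by_cases h : σ < dl
  · exact le_trans (h2 (by rw [Real.dist_eq, sub_zero, abs_of_pos hσ]; exact h) hσ).le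
      (le_max_left _ _)
  · push Not at h
    refine le_trans ?_ (le_max_right _ _)
    have h3 := RS_anti H.good H.a0 hdl2 (show dl / 2 ≤ σ by linarith)
    have h4 := H.one_le hσ
    nlinarith

/-- `∑ b(n)/log n n^(-(1+σ)) = log D(σ) + const` -/
lemma Dat.logsum {a b : ℕ → ℝ} (H : Dat a b) (hb1 : b 1 = 0) {κ : ℝ}
    (hlim : Tendsto (fun σ => σ * RS a σ) (𝓝[>] 0) (𝓝 κ)) :
    ∃ C : ℝ, ∀ σ : ℝ, 0 < σ → σ ≤ 1 → RS (fun n => b n / Real.log n) σ ≤ Real.log (1 / σ) + C := by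
  obtain ⟨C, hC, hCb⟩ := H.bound hlim
  have hlog2 : 0 < Real.log 2 := Real.log_pos (by norm_num)
  have hg : Good (fun n : ℕ => b n / Real.log n) := by
    intro σ hσ
    refine Summable.of_nonneg_of_le (fun n => mul_nonneg (div_nonneg (H.b0 n)
      (Real.log_natCast_nonneg n)) (Real.rpow_nonneg (Nat.cast_nonneg _) _)) (fun n => ?_)
      ((H.bgood σ hσ).mul_right (1 / Real.log 2))
    have hr : 0 ≤ (n : ℝ) ^ (-(1 + σ)) := Real.rpow_nonneg (Nat.cast_nonneg _) _
    have hbn := H.b0 n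
    rcases Nat.lt_or_ge n 2 with h | h
    · have : b n = 0 := by interval_cases n; exacts [H.bz, hb1]
      simp [this]
    · have h2 : Real.log 2 ≤ Real.log n := Real.log_le_log (by norm_num) (by exact_mod_cast h)
      have h3 : b n / Real.log n ≤ b n * (1 / Real.log 2) := by
        rw [mul_one_div]
        exact div_le_div_of_nonneg_left hbn hlog2 h2
      calc b n / Real.log n * (n : ℝ) ^ (-(1 + σ)) ≤ b n * (1 / Real.log 2) * (n : ℝ) ^ (-(1 + σ)) :=
            mul_le_mul_of_nonneg_right h3 hr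
        _ = _ := by ring
  have hd : ∀ σ : ℝ, 0 < σ → HasDerivAt (RS (fun n : ℕ => b n / Real.log n)) (-(RS b σ)) σ := by
    intro σ hσ
    have h := hg.hasDerivAt hσ
    have e : (fun n : ℕ => Real.log (n : ℝ) * (b n / Real.log n)) = b := by
      funext n
      rcases Nat.lt_or_ge n 2 with h | h
      · have : b n = 0 := by interval_cases n; exacts [H.bz, hb1]
        simp [this]
      · have h2 : 0 < Real.log n := Real.log_pos (by exact_mod_cast h)
        field_simp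
    rwa [e] at h
  refine ⟨RS (fun n : ℕ => b n / Real.log n) 1 - Real.log (RS a 1) + Real.log C,
    fun σ hσ h1 => ?_⟩
  have hconst : RS (fun n : ℕ => b n / Real.log n) σ - Real.log (RS a σ) =
      RS (fun n : ℕ => b n / Real.log n) 1 - Real.log (RS a 1) := by
    have hd2 : ∀ x ∈ Set.Ioi (0:ℝ), HasDerivWithinAt
        (fun x => RS (fun n : ℕ => b n / Real.log n) x - Real.log (RS a x)) 0 (Set.Ioi 0) x := by
      intro x hx
      have := (hd x hx).sub (H.log_deriv hx)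
      rw [sub_self] at this
      exact this.hasDerivWithinAt
    have := (convex_Ioi (0:ℝ)).is_const_of_fderivWithin_eq_zero (𝕜 := ℝ)
      (f := fun x => RS (fun n : ℕ => b n / Real.log n) x - Real.log (RS a x))
      (fun x hx => (hd2 x hx).differentiableWithinAt) (fun x hx => by
        have h5 := (hd2 x hx).hasFDerivWithinAt.fderivWithin
          ((isOpen_Ioi.uniqueDiffOn) x hx)
        rw [h5]; simp) (show σ ∈ Set.Ioi (0:ℝ) from hσ) (show (1:ℝ) ∈ Set.Ioi (0:ℝ) from Set.mem_Ioi.mpr one_pos)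
    exact this
  have h3 := H.one_le hσ
  have h4 : Real.log (RS a σ) ≤ Real.log (1 / σ) + Real.log C := by
    rw [← Real.log_mul (by positivity) hC.ne']
    refine Real.log_le_log (by linarith) ?_
    have := hCb σ hσ h1
    rw [one_div, inv_mul_eq_div, le_div_iff₀ hσ]
    linarith
  linarith

theorem t_sel (h1 : W388.StId2) (hk : W388.StKara) : W388.StSel := by
  intro N hN lam HS HR
  obtain ⟨hR1, κ, hκ, hR2⟩ := HR
  set b : ℕ → ℝ := fun n => ArithmeticFunction.vonMangoldt n * W388.cS N lam n ^ 2 with hb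
  have hl2 : Good (fun n => lam n ^ 2) := hR1
  have hprod : ∀ σ : ℝ, 0 < σ → Summable (fun n : ℕ => W388.AA N lam n * (n : ℝ) ^ (-(1 + σ))) ∧
      RS (W388.AA N lam) σ = RS (sq N) σ * RS (fun n => lam n ^ 2) σ := fun σ hσ =>
    RS_conv (f := sq N) (g := fun n => lam n ^ 2) (AA_conv N lam) (by linarith) (sq_good hσ.le)
      (hl2 σ hσ)
  have H : Dat (W388.AA N lam) b := by
    refine ⟨fun n => ?_, fun n => ?_, ?_, ?_, fun n => ?_, fun σ hσ => (hprod σ hσ).1⟩
    · exact Finset.sum_nonneg fun m _ => sq_nonneg _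
    · exact mul_nonneg ArithmeticFunction.vonMangoldt_nonneg (sq_nonneg _)
    · simp [hb]
    · unfold W388.AA
      simp [Finset.filter_singleton, HS.one]
    · rcases Nat.eq_zero_or_pos n with rfl | hn
      · simp
      · rw [mul_comm, h1 N lam HS n hn.ne', Nat.sum_divisorsAntidiagonal
          (fun d e => b d * W388.AA N lam e)]
  have hDlim : Tendsto (fun σ => σ * RS (W388.AA N lam) σ) (𝓝[>] 0) (𝓝 (RS (sq N) 0 * κ)) := by
    refine ((sq_tendsto N).mul hR2).congr' ?_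
    filter_upwards [self_mem_nhdsWithin] with σ hσ
    rw [(hprod σ hσ).2]
    show RS (sq N) σ * (σ * RS (fun n => lam n ^ 2) σ) = _
    ring
  have hκ' : 0 < RS (sq N) 0 * κ := mul_pos (sq_pos N) hκ
  have hlim := H.lim hκ' hDlim
  have hb1 : b 1 = 0 := by simp [hb]
  refine ⟨?_, H.bgood, ?_⟩
  · -- Karamata
    have hpw : ∀ (σ : ℝ) (n : ℕ), b n / n * (n : ℝ) ^ (-σ) = b n * (n : ℝ) ^ (-(1 + σ)) := by
      intro σ n
      rcases Nat.eq_zero_or_pos n with rfl | hn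
      · simp [H.bz]
      · have hn' : (0:ℝ) < n := by exact_mod_cast hn
        rw [show (-(1 + σ)) = -σ - 1 by ring, Real.rpow_sub hn', Real.rpow_one]
        ring
    have h2 := hk (fun n => b n / n) (fun n => div_nonneg (H.b0 n) (Nat.cast_nonneg _))
      (by simp) (fun σ hσ => by simpa only [hpw] using H.bgood σ hσ)
      (by simp only [hpw]; exact hlim)
    unfold W388.SelE
    refine h2.congr fun x => ?_
    congr 1
    refine Finset.sum_congr rfl fun n _ => ?_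
    rw [hb, Complex.norm_real, Real.norm_eq_abs, sq_abs]
  · obtain ⟨C, hC⟩ := H.logsum hb1 hDlim
    refine ⟨C, fun σ hσ h1σ => le_trans (le_of_eq ?_) (hC σ hσ h1σ)⟩
    unfold RS
    refine tsum_congr fun n => ?_
    rw [hb]
    ring

end

end W688.TW
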